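import Pool.Agent.Work.MP_b17785_an.Bdx.B02
import Pool.Agent.Work.MP_b17785_an.Bdx.B03
import Pool.Agent.Work.MP_b17785_an.Bdx.B01
import Pool.Agent.Work.MP_b17785_an.LB.AsmF
import Pool.Agent.Work.MP_b17785_an.NbhdC

/-!
# MP_b17785_an, block SG: assembly
-/

set_option autoImplicit false

open Complex Metric Set Filter Topology MeasureTheory
open scoped ENNReal ComplexConjugate

namespace Pool.Agent.MultS.SG

theorem tri : Tri := prf_Tri prf_Tri0 Gol.prfPhiEx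

theorem four : Four := prf_Four tri prf_KT

theorem twoB : TwoB := prf_TwoB (prf_Two tri) prf_KT

theorem gro : Gro := prf_Gro prf_KT Gol.prfGrowL (prfGrowth Gol.GrowL.dist')

theorem bigQ : BigQ := prf_BigQ twoB gro

theorem pt : Pt := prf_Pt (prf_Near twoB gro) (prf_Prof four bigQ)

theorem step : Step := prf_Step (prf_VBd pt prf_Shell prf_PS gol) prf_MaxP prf_PS

theorem mul : Mul := prf_Mul prf_PS

theorem gen : Gen' := prf_Gen mul (prf_Lim prf_PS littAll gol)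

theorem rad : Rad := prf_Rad step (prf_Trun prf_Shell) gen

theorem lipG : LipG := prf_LipG gen

theorem lit_one : Lit Sc (fun _ => 1) := by
  have h := lit_rot (x := 1) (by simp)
  simpa using h

theorem Dat.mono {m : Measure ℝ} {g : ℝ → ℂ} {r M M' : ℝ} (h : Dat m g r M) (hM : M ≤ M') :
    Dat m g r M' :=
  ⟨h.meas, h.supp, fun v hv => (h.shell v hv).trans (ENNReal.ofReal_le_ofReal hM)⟩

theorem DatO.mono {m : Measure ℝ} {g : ℝ → ℂ} {M M' : ℝ} (h : DatO m g M) (hM : M ≤ M') :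
    DatO m g M' :=
  ⟨h.meas, h.supp, fun v hv => (h.shell v hv).trans (ENNReal.ofReal_le_ofReal hM)⟩

/-- the step theorem with an additional multiplier -/
theorem stepA : ∃ c : ℝ, 0 < c ∧ ∀ (m : Measure ℝ) (g : ℝ → ℂ) (r : ℝ) (lam : ℕ → ℂ), 0 < r →
    r < 1 → Dat m g r (c * (1 - r)) → Lit Sc lam → 1 + ∫ ρ, g ρ ∂m ≠ 0 ∧
      Lit Sc (fun n => lam n * (((r : ℂ) ^ (n - 1) + ∫ ρ, (ρ : ℂ) ^ (n - 1) * g ρ ∂m) /
        (1 + ∫ ρ, g ρ ∂m))) := by
  obtain ⟨c, hc, h⟩ := step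
  refine ⟨c, hc, fun m g r lam hr0 hr1 hD hlam => ?_⟩
  obtain ⟨h1, h2⟩ := h m g r hr0 hr1 hD
  have e : mom m g 0 = ∫ ρ, g ρ ∂m := by
    unfold mom
    simp
  rw [e] at h1 h2
  exact ⟨h1, mul _ _ hlam h2⟩

/-- semigroups -/
theorem semiA : ∃ c : ℝ, 0 < c ∧ ∀ (m : Measure ℝ) (g : ℝ → ℂ) (a b : ℝ) (eta : ℕ → ℂ), 0 < a →
    DatO m g (c * a) → eta 1 = 0 → LB.CN eta (c * a) → ∀ t : ℝ, 0 ≤ t →
      Lit Sc (fun n => Complex.exp (-(t * (((a : ℂ) + b * I) * ((n - 1 : ℕ) : ℂ) +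
        ∫ ρ, (1 - (ρ : ℂ) ^ (n - 1)) * g ρ ∂m + eta n)))) := by
  obtain ⟨c, hc, h⟩ := rad
  obtain ⟨C, hC, -, hE⟩ := LB.equA
  have hC0 : 0 < C := by linarith
  refine ⟨min (c / 2) (1 / (32 * C)), lt_min (by positivity) (by positivity), ?_⟩
  intro m g a b eta ha hD he hN t ht
  rcases ht.eq_or_lt with rfl | ht
  · simpa using lit_one
  have ha2 : 0 < a / 2 := by positivity
  have h1 := h m g (a / 2) ha2 (hD.mono (by
    have := mul_le_mul_of_nonneg_right (min_le_left (c / 2) (1 / (32 * C))) ha.le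
    linarith)) t ht
  have hX := hE eta _ hN
  have h2 := lipG (a / 2) eta ha2 he (by
    intro f hf z hz
    obtain ⟨h3, h4⟩ := hX f hf z hz
    refine ⟨h3, h4.trans ?_⟩
    have h5 := mul_le_mul_of_nonneg_right (min_le_right (c / 2) (1 / (32 * C))) ha.le
    have h6 : C * (min (c / 2) (1 / (32 * C)) * a) ≤ C * (1 / (32 * C) * a) :=
      mul_le_mul_of_nonneg_left h5 hC0.le
    have h7 : C * (1 / (32 * C) * a) = a / 32 := by
      field_simp
    linarith) t ht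
  have hx : ‖Complex.exp (-((t * b : ℝ) * I))‖ = 1 := by
    have e : -(((t * b : ℝ) : ℂ) * I) = ((-(t * b) : ℝ) : ℂ) * I := by push_cast; ring
    rw [e, Complex.norm_exp_ofReal_mul_I]
  have h3 := mul _ _ (mul _ _ h1 h2) (lit_rot hx)
  convert h3 using 2 with n
  rw [← Complex.exp_nat_mul, ← Complex.exp_add, ← Complex.exp_add]
  congr 1
  push_cast
  ring

end Pool.Agent.MultS.SG
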