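import Pool.Agent.Work.MP_b17785_an.StmtsK
import Pool.Agent.Work.MP_b17785_an.Gol.Stmts

/-!
# MP_b17785_an, block SG: semigroups of coefficient multipliers of the class S

Statements of the items. All items are independent; each takes some of the statements below as
explicit hypotheses. See `SG/PROOF.md`.
-/

set_option autoImplicit false

open Complex Metric Set Filter Topology MeasureTheory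
open scoped ENNReal ComplexConjugate

namespace Pool.Agent.MultS.SG

/-! ## Basic facts -/

/-- [PS] Power series. -/
def PS : Prop :=
  (∀ f : ℂ → ℂ, DifferentiableOn ℂ f (ball 0 1) → ∀ z ∈ ball (0 : ℂ) 1,
    Summable (fun n : ℕ => ‖tc f n * z ^ n‖) ∧ HasSum (fun n : ℕ => tc f n * z ^ n) (f z)) ∧
  (∀ (c : ℕ → ℂ) (G : ℂ → ℂ), (∀ z ∈ ball (0 : ℂ) 1, HasSum (fun n : ℕ => c n * z ^ n) (G z)) →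
    DifferentiableOn ℂ G (ball 0 1) ∧ ∀ n, tc G n = c n)

/-- [KT] The Koebe transform. -/
def KT : Prop :=
  ∀ f : ℂ → ℂ, Sc f → ∀ b ∈ ball (0 : ℂ) 1, deriv f b ≠ 0 ∧ ∃ F : ℂ → ℂ, Sc F ∧
    ∀ x ∈ ball (0 : ℂ) 1, (x - b) / (1 - conj b * x) ∈ ball (0 : ℂ) 1 ∧
      F ((x - b) / (1 - conj b * x)) = (f x - f b) / ((1 - (‖b‖ : ℂ) ^ 2) * deriv f b)

/-! ## Four point inequality -/

/-- [Tri0] Goluzin's inequality for three points, for functions which are univalent on a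
neighbourhood of the closed disk. -/
def Tri0 : Prop :=
  ∀ (f : ℂ → ℂ) (P : ℝ), Gol.Nice f P → ∀ x : ℂ, 0 < ‖x‖ → ‖x‖ < 1 → ∀ φ : ℂ → ℂ,
    DifferentiableOn ℂ φ (ball 0 P) → φ 0 = 0 →
    (∀ z ∈ ball (0 : ℂ) P, z ≠ 0 → 1 / f z - 1 / f x = (1 / z - 1 / x) * Complex.exp (φ z)) →
    ∀ y z : ℂ, ‖y‖ < 1 → ‖z‖ < 1 →
      2 * (φ z).re - 2 * (φ y).re + Real.log (1 - ‖x‖ ^ 2) + Real.log (1 - ‖y‖ ^ 2) +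
        Real.log (1 - ‖z‖ ^ 2) ≤ 2 * Real.log ‖1 - conj y * z‖

/-- [Tri] Goluzin's inequality for three points in the class `S`. -/
def Tri : Prop :=
  ∀ f : ℂ → ℂ, Sc f → ∀ x ∈ ball (0 : ℂ) 1, ∀ y ∈ ball (0 : ℂ) 1, ∀ z ∈ ball (0 : ℂ) 1,
    ‖f z - f x‖ * ‖f y‖ * ‖y - x‖ * ‖z‖ *
        √((1 - ‖x‖ ^ 2) * (1 - ‖y‖ ^ 2) * (1 - ‖z‖ ^ 2)) ≤
      ‖f y - f x‖ * ‖f z‖ * ‖z - x‖ * ‖y‖ * ‖1 - conj y * z‖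

/-- [Four] The four point inequality. -/
def Four : Prop :=
  ∀ f : ℂ → ℂ, Sc f → ∀ a ∈ ball (0 : ℂ) 1, ∀ b ∈ ball (0 : ℂ) 1, ∀ x ∈ ball (0 : ℂ) 1,
    ∀ y ∈ ball (0 : ℂ) 1,
    ‖f b - f x‖ * ‖f y - f a‖ * (‖b - a‖ * ‖x - y‖ *
        √((1 - ‖a‖ ^ 2) * (1 - ‖b‖ ^ 2) * (1 - ‖x‖ ^ 2) * (1 - ‖y‖ ^ 2))) ≤
      ‖f b - f a‖ * ‖f x - f y‖ *
        (‖b - x‖ * ‖y - a‖ * ‖1 - conj y * b‖ * ‖1 - conj a * x‖)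

/-- [Two] Goluzin's inequality for two points. -/
def Two : Prop :=
  ∀ f : ℂ → ℂ, Sc f → ∀ x ∈ ball (0 : ℂ) 1, ∀ y ∈ ball (0 : ℂ) 1,
    ‖x - y‖ * ‖f x‖ * ‖f y‖ * √((1 - ‖x‖ ^ 2) * (1 - ‖y‖ ^ 2)) ≤ ‖f x - f y‖ * ‖x‖ * ‖y‖

/-- [TwoB] Goluzin's inequality for two points and an arbitrary base point. -/
def TwoB : Prop :=
  ∀ f : ℂ → ℂ, Sc f → ∀ b ∈ ball (0 : ℂ) 1, ∀ x ∈ ball (0 : ℂ) 1, ∀ y ∈ ball (0 : ℂ) 1,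
    ‖f x - f b‖ * ‖f y - f b‖ * ((1 - ‖b‖ ^ 2) * ‖x - y‖ * √((1 - ‖x‖ ^ 2) * (1 - ‖y‖ ^ 2))) ≤
      ‖f x - f y‖ * ‖deriv f b‖ * (‖x - b‖ * ‖y - b‖ * ‖1 - conj b * x‖ * ‖1 - conj b * y‖)

/-- [Gro] The growth theorem for an arbitrary base point. -/
def Gro : Prop :=
  ∀ f : ℂ → ℂ, Sc f → ∀ b ∈ ball (0 : ℂ) 1, ∀ x ∈ ball (0 : ℂ) 1,
    (1 - ‖b‖ ^ 2) * ‖deriv f b‖ * ‖x - b‖ ≤ 4 * ‖f x - f b‖ * ‖1 - conj b * x‖ ∧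
    ‖f x - f b‖ * (‖1 - conj b * x‖ - ‖x - b‖) ^ 2 ≤
      (1 - ‖b‖ ^ 2) * ‖deriv f b‖ * ‖x - b‖ * ‖1 - conj b * x‖

/-! ## Estimates on two radii -/

/-- the function `√(min s (1/s))` -/
noncomputable def pp (s : ℝ) : ℝ := √(min s (1 / s))

/-- [BigQ] -/
def BigQ : Prop :=
  ∀ f : ℂ → ℂ, Sc f → ∀ (r ρ : ℝ) (z w : ℂ), 0 < r → r < 1 → 0 ≤ ρ → ρ ≤ r → ‖z‖ = 1 → ‖w‖ = 1 →
    1 - ρ ≤ ‖z - w‖ →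
    ‖f (ρ * z) - f (r * z)‖ * (r * (1 - r)) ≤ 36 * ‖z - w‖ * ‖f (r * z) - f (r * w)‖

/-- [Near] -/
def Near : Prop :=
  ∀ f : ℂ → ℂ, Sc f → ∀ (r ρ : ℝ) (z w : ℂ), 0 < r → r < 1 → 0 ≤ ρ → ρ ≤ r → ‖z‖ = 1 → ‖w‖ = 1 →
    ‖z - w‖ ≤ 4 * (1 - ρ) →
    ‖f (ρ * z) - f (ρ * w)‖ * (r * (1 - r)) ≤
      400000 * ρ * (1 - ρ) * ‖f (r * z) - f (r * w)‖

/-- [Prof] The profile of `f` on the radius of `z`. -/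
def Prof : Prop :=
  ∀ f : ℂ → ℂ, Sc f → ∀ (r : ℝ) (z w : ℂ), 0 < r → r < 1 → ‖z‖ = 1 → ‖w‖ = 1 →
    ∃ v₀ : ℝ, 0 < v₀ ∧ ∀ ρ : ℝ, 0 ≤ ρ → ρ ≤ r → 1 - ρ ≤ ‖z - w‖ →
      ‖f (ρ * z) - f (r * z)‖ * (r * (1 - r)) ≤
        192 * ‖f (r * z) - f (r * w)‖ * (pp ((1 - ρ) / v₀) + (1 - ρ))

/-- [Pt] The estimate of `f (ρ z) - f (ρ w)` by `f (r z) - f (r w)`. -/
def Pt : Prop :=
  ∀ f : ℂ → ℂ, Sc f → ∀ (r : ℝ) (z w : ℂ), 0 < r → r < 1 → ‖z‖ = 1 → ‖w‖ = 1 →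
    ∃ v₁ v₂ : ℝ, 0 < v₁ ∧ 0 < v₂ ∧ ∀ ρ : ℝ, 0 ≤ ρ → ρ ≤ r →
      ‖f (ρ * z) - f (ρ * w)‖ * (r * (1 - r)) ≤
        400000 * ρ * ‖f (r * z) - f (r * w)‖ * ((1 - ρ) + pp ((1 - ρ) / v₁) + pp ((1 - ρ) / v₂))

/-- [Shell] Integration over the dyadic shells. -/
def Shell : Prop :=
  ∀ (μ : Measure ℝ) (M : ℝ), 0 ≤ M →
    (∀ v : ℝ, 0 < v → μ (Icc (1 - 2 * v) (1 - v)) ≤ ENNReal.ofReal M) →
    (∀ v₀ : ℝ, 0 < v₀ →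
      ∫⁻ ρ in Ico (0 : ℝ) 1, ENNReal.ofReal (pp ((1 - ρ) / v₀)) ∂μ ≤ ENNReal.ofReal (8 * M)) ∧
    ∫⁻ ρ in Ico (0 : ℝ) 1, ENNReal.ofReal (1 - ρ) ∂μ ≤ ENNReal.ofReal (8 * M)

/-! ## One step -/

/-- The complex measure `g m` lives on `[0, r]`, and its total variation on every shell
`v ≤ 1 - ρ ≤ 2 v` is at most `M`. -/
structure Dat (m : Measure ℝ) (g : ℝ → ℂ) (r M : ℝ) : Prop where
  meas : AEStronglyMeasurable g m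
  supp : ∀ᵐ ρ ∂m, g ρ ≠ 0 → 0 ≤ ρ ∧ ρ ≤ r
  shell : ∀ v : ℝ, 0 < v →
    ∫⁻ ρ in Icc (1 - 2 * v) (1 - v), ‖g ρ‖ₑ ∂m ≤ ENNReal.ofReal M

/-- the moments -/
noncomputable def mom (m : Measure ℝ) (g : ℝ → ℂ) (n : ℕ) : ℂ := ∫ ρ, (ρ : ℂ) ^ n * g ρ ∂m

/-- [VBd] The bound on a circle. -/
def VBd : Prop :=
  ∀ f : ℂ → ℂ, Sc f → ∀ (m : Measure ℝ) (g : ℝ → ℂ) (r M : ℝ), 0 < r → r < 1 → 0 ≤ M →
    Dat m g r M → Integrable g m ∧ ∀ z w : ℂ, ‖z‖ < 1 → ‖w‖ = ‖z‖ →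
      Summable (fun n : ℕ => mom m g n * tc f (n + 1) * z ^ (n + 1)) ∧
      ‖∑' n : ℕ, mom m g n * tc f (n + 1) * (z ^ (n + 1) - w ^ (n + 1))‖ * (r * (1 - r)) ≤
        10000000 * M * ‖f (r * z) - f (r * w)‖

/-- [MaxP] The maximum principle for difference quotients. -/
def MaxP : Prop :=
  ∀ (A V : ℂ → ℂ) (θ : ℝ), 0 ≤ θ → DifferentiableOn ℂ A (ball 0 1) → DifferentiableOn ℂ V (ball 0 1) →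
    InjOn A (ball 0 1) → (∀ z w : ℂ, ‖z‖ < 1 → ‖w‖ = ‖z‖ → ‖V z - V w‖ ≤ θ * ‖A z - A w‖) →
    ∀ z ∈ ball (0 : ℂ) 1, ∀ w ∈ ball (0 : ℂ) 1, ‖V z - V w‖ ≤ θ * ‖A z - A w‖

/-- [Step] Perturbations of a dilation by averages of stronger dilations. -/
def Step : Prop :=
  ∃ c : ℝ, 0 < c ∧ ∀ (m : Measure ℝ) (g : ℝ → ℂ) (r : ℝ), 0 < r → r < 1 →
    Dat m g r (c * (1 - r)) → 1 + mom m g 0 ≠ 0 ∧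
      Lit Sc (fun n => ((r : ℂ) ^ (n - 1) + mom m g (n - 1)) / (1 + mom m g 0))

/-! ## Semigroups -/

/-- [Mul] Products. -/
def Mul : Prop := ∀ lam mu : ℕ → ℂ, Lit Sc lam → Lit Sc mu → Lit Sc (fun n => lam n * mu n)

/-- [Lim] The set of multipliers is closed under pointwise limits. -/
def Lim : Prop :=
  ∀ (lam : ℕ → ℕ → ℂ) (mu : ℕ → ℂ), (∀ N, Lit Sc (lam N)) →
    (∀ n, 1 ≤ n → Tendsto (fun N => lam N n) atTop (𝓝 (mu n))) → Lit Sc mu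

/-- [Gen] From small steps to a semigroup. -/
def Gen' : Prop :=
  ∀ γ : ℕ → ℂ, (∀ t : ℝ, 0 < t → ∃ κ : ℕ → ℕ → ℂ, (∀ᶠ N in atTop, Lit Sc (κ N)) ∧
      ∀ n, 1 ≤ n → Tendsto (fun N : ℕ => (N : ℂ) * (κ N n - 1)) atTop (𝓝 (-(t * γ n)))) →
    ∀ t : ℝ, 0 < t → Lit Sc (fun n => Complex.exp (-(t * γ n)))

/-- The complex measure `g m` lives on `[0, 1)`, and its total variation on every shell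
`v ≤ 1 - ρ ≤ 2 v` is at most `M`. -/
structure DatO (m : Measure ℝ) (g : ℝ → ℂ) (M : ℝ) : Prop where
  meas : AEStronglyMeasurable g m
  supp : ∀ᵐ ρ ∂m, g ρ ≠ 0 → 0 ≤ ρ ∧ ρ < 1
  shell : ∀ v : ℝ, 0 < v →
    ∫⁻ ρ in Icc (1 - 2 * v) (1 - v), ‖g ρ‖ₑ ∂m ≤ ENNReal.ofReal M

/-- [Trun] Truncated data and their limits (`h` small, `r = exp (-a h)`). -/
def Trun : Prop :=
  ∀ (m : Measure ℝ) (g : ℝ → ℂ) (M a : ℝ), 0 ≤ M → 0 < a → DatO m g M →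
    (∀ r : ℝ, 0 < r → r < 1 → ∀ h : ℝ, 0 ≤ h →
      Dat m (fun ρ => if ρ ≤ r then (h : ℂ) * g ρ else 0) r (h * M)) ∧
    ∀ n : ℕ, Integrable (fun ρ : ℝ => (1 - (ρ : ℂ) ^ n) * g ρ) m ∧
      Tendsto (fun h : ℝ => mom m (fun ρ => if ρ ≤ Real.exp (-(a * h)) then (h : ℂ) * g ρ else 0) n)
        (𝓝[>] 0) (𝓝 0) ∧
      Tendsto (fun h : ℝ =>
        (mom m (fun ρ => if ρ ≤ Real.exp (-(a * h)) then (h : ℂ) * g ρ else 0) 0 -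
          mom m (fun ρ => if ρ ≤ Real.exp (-(a * h)) then (h : ℂ) * g ρ else 0) n) / (h : ℂ))
        (𝓝[>] 0) (𝓝 (∫ ρ, (1 - (ρ : ℂ) ^ n) * g ρ ∂m))

/-- [Rad] Semigroups from averages of dilations. -/
def Rad : Prop :=
  ∃ c : ℝ, 0 < c ∧ ∀ (m : Measure ℝ) (g : ℝ → ℂ) (a : ℝ), 0 < a → DatO m g (c * a) →
    ∀ t : ℝ, 0 < t → Lit Sc (fun n => Complex.exp
      (-(t * (a * ((n - 1 : ℕ) : ℂ) + ∫ ρ, (1 - (ρ : ℂ) ^ (n - 1)) * g ρ ∂m))))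

/-- [LipG] Semigroups from the Lipschitz norm. -/
def LipG : Prop :=
  ∀ (a : ℝ) (eta : ℕ → ℂ), 0 < a → eta 1 = 0 →
    (∀ f : ℂ → ℂ, Sc f → ∀ z ∈ ball (0 : ℂ) 1,
      Summable (fun n : ℕ => ((n : ℂ) + 2) * eta (n + 2) * tc f (n + 2) * z ^ (n + 1)) ∧
      ‖∑' n : ℕ, ((n : ℂ) + 2) * eta (n + 2) * tc f (n + 2) * z ^ (n + 1)‖ ≤ a / 16) →
    ∀ t : ℝ, 0 < t → Lit Sc (fun n => Complex.exp (-(t * (a * ((n - 1 : ℕ) : ℂ) + eta n))))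

end Pool.Agent.MultS.SG
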